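import Mathlib

set_option autoImplicit false

open EuclideanGeometry Real

namespace Pool.Agent.Results.MP_ba4d4a_gt.Counter

abbrev E := EuclideanSpace ℝ (Fin 3)

/-- Curvature at the vertex `v` of the tetrahedron with the other vertices `x, y, z`. -/
noncomputable def curv (v x y z : E) : ℝ := 2 * π - (∠ x v y + ∠ x v z + ∠ y v z)

lemma cos_eq (x v y : E) : ∠ x v y = arccos ((∑ i, (x i - v i) * (y i - v i)) /
    √((∑ i, (x i - v i) ^ 2) * ∑ i, (y i - v i) ^ 2)) := by
  rw [EuclideanGeometry.angle, InnerProductGeometry.angle, sqrt_mul (by positivity)]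
  simp [EuclideanSpace.norm_eq, PiLp.inner_apply, mul_comm]

lemma cmp {k m t : ℝ} (hk : 0 ≤ k) (ht : 0 < t) (h1 : t ≤ 1) (h : k ^ 2 < t ^ 2 * m) :
    arccos t < arccos (k / √m) := by
  have hm : 0 < m := by
    by_contra c
    nlinarith [mul_nonneg (sq_nonneg t) (neg_nonneg.2 (not_lt.1 c))]
  refine arccos_lt_arccos (le_trans (by norm_num) (by positivity : 0 ≤ k / √m)) ?_ h1
  rw [div_lt_iff₀ (by positivity)]
  exact lt_of_pow_lt_pow_left₀ 2 (by positivity) (by rw [mul_pow, sq_sqrt hm.le]; exact h)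

theorem result : ∃ a b c d : E, AffineIndependent ℝ ![a, b, c, d] ∧
    (dist a c < dist a b ∧ dist a d < dist a b ∧ dist b c < dist a b ∧ dist b d < dist a b ∧
      dist c d < dist a b) ∧
    curv a b c d < curv c a b d ∧ curv b a c d < curv c a b d := by
  have s : √(81 : ℝ) = 9 := by rw [show (81 : ℝ) = 9 ^ 2 by norm_num]; simp
  have h1 := cmp (k := 3) (m := 54) (t := 4 / 9) (by norm_num) (by norm_num) (by norm_num)
    (by norm_num)
  have h2 := cmp (k := 5) (m := 90) (t := 2 / 3) (by norm_num) (by norm_num) (by norm_num)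
    (by norm_num)
  have h3 := cmp (k := 5) (m := 60) (t := 2 / 3) (by norm_num) (by norm_num) (by norm_num)
    (by norm_num)
  refine ⟨!₂[2, 1, -2], !₂[2, -2, -1], !₂[0, 0, 0], !₂[3, 0, 0], ?_, ?_, ?_, ?_⟩
  · rw [affineIndependent_iff_of_fintype]
    intro w h0 h i
    rw [Finset.weightedVSub_eq_linear_combination _ h0] at h
    have a := congrArg (· 0) h
    have b := congrArg (· 1) h
    have c := congrArg (· 2) h
    simp [Fin.sum_univ_four] at h0 a b c
    fin_cases i <;> simp <;> linarith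
  · simp only [EuclideanSpace.dist_eq]
    refine ⟨?_, ?_, ?_, ?_, ?_⟩ <;> refine sqrt_lt_sqrt (by positivity) ?_ <;>
      simp [Fin.sum_univ_three, Real.dist_eq] <;> norm_num
  · simp only [curv, cos_eq, Fin.sum_univ_three]
    simp
    norm_num [s]
    linarith
  · simp only [curv, cos_eq, Fin.sum_univ_three]
    simp
    norm_num [s]
    linarith

end Pool.Agent.Results.MP_ba4d4a_gt.Counter
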